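import Mathlib
import Pool.Agent.X178.RR.Main

/-!
# The arithmetic-geometric mean inequality for the norms of products of matrices is false

`W m A` is the average of `‖A (j 0) * ⋯ * A (j (m - 1))‖` over all the maps `j : Fin m → Fin n`,
and `D m A` is the average over the injective ones (`(n - m)! / n!` times the sum over the
embeddings). The norm is the spectral norm (`Matrix.Norms.L2Operator`).

For every `n ≥ 100` there are `n` positive semidefinite matrices `A` (real or complex) with
`W n A ≤ (1 / 50) (9 / 10) ^ (n - 100) * D n A`. In particular the inequality `D m A ≤ W m A` asked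
for in the problem fails, by an exponentially large factor.

The matrices are direct sums over all the permutations `σ` of the `n` indices; in the summand of
`σ` the `i`-th matrix is the rank one matrix of the vector `e_{σ i} + e_{σ i + 1}`.
-/

namespace Pool.Agent.Results.MP_6169a9_an.NormInsideFails

open Matrix Pool.Agent.X178.RR
open scoped Matrix.Norms.L2Operator ComplexOrder

theorem result (𝕜 : Type) [RCLike 𝕜] :
    (∀ n : ℕ, 100 ≤ n → ∃ (d : ℕ) (A : Fin n → Matrix (Fin d) (Fin d) 𝕜), 1 ≤ d ∧
      (∀ i, (A i).PosSemidef) ∧ 0 < D n A ∧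
      W n A ≤ (1 / 50) * (9 / 10 : ℝ) ^ (n - 100) * D n A) ∧
    ¬ ∀ (n m d : ℕ) (A : Fin n → Matrix (Fin d) (Fin d) 𝕜), 1 ≤ m → m ≤ n → 1 ≤ d →
      (∀ i, (A i).PosSemidef) → D m A ≤ W m A :=
  ⟨fun n hn => main 𝕜 n hn, fails 𝕜⟩

end Pool.Agent.Results.MP_6169a9_an.NormInsideFails
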